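import Mathlib

set_option autoImplicit false
set_option linter.all false

/-!
# The largest diameter of a connected `k`-conservative graph

For every `k ≥ 2` we determine `D(k)`, the largest diameter of a connected `k`-conservative graph:
`D(2) = 2`, `D(3) = 4`, `D(4) = 6` and `D(k) = 3k - 7` for all `k ≥ 5`.
-/

namespace Pool.Agent.Results.MP_2cf482_co.DiameterFormula

variable {V : Type*}

/-- `A` dominates `B`: every vertex of `B` lies in `A` or has a neighbour in `A`. -/
def Dominates (G : SimpleGraph V) (A B : Set V) : Prop :=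
  ∀ b ∈ B, b ∈ A ∨ ∃ a ∈ A, G.Adj a b

/-- `A` precisely dominates `B`: it dominates `B` and dominates no vertex outside `B`. -/
def PreciselyDominates (G : SimpleGraph V) (A B : Set V) : Prop :=
  Dominates G A B ∧ ∀ v, v ∉ B → ¬ Dominates G A {v}

/-- The domination number. -/
noncomputable def domNumber (G : SimpleGraph V) : ℕ :=
  sInf {m | ∃ A : Finset V, A.card = m ∧ Dominates G (A : Set V) Set.univ}

/-- `k`-conservative graphs. -/
def IsConservative (k : ℕ) (G : SimpleGraph V) : Prop :=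
  2 ≤ k ∧ domNumber G = k - 1 ∧
    ∀ x y, x ≠ y → ¬ G.Adj x y → ∃ S : Finset V, S.card = k - 2 ∧
      (PreciselyDominates G (insert x (S : Set V)) {y}ᶜ ∨
        PreciselyDominates G (insert y (S : Set V)) {x}ᶜ)

/-- The set of diameters of connected `k`-conservative graphs. -/
def diameters (k : ℕ) : Set ℕ :=
  {d | ∃ (V : Type) (_ : Fintype V) (G : SimpleGraph V),
    G.Connected ∧ IsConservative k G ∧ G.diam = d}

/-! ### The upper bound -/

/-- abstract level function. -/
structure Lev (G : SimpleGraph V) (lev : V → ℕ) (D : ℕ) : Prop where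
  adj : ∀ a b, G.Adj a b → lev b ≤ lev a + 1
  ex : ∀ i, i ≤ D → ∃ u, lev u = i

theorem lev_dist {G : SimpleGraph V} (hG : G.Connected) (v z : V) :
    Lev G (fun u => G.dist v u) (G.dist v z) := by
  constructor
  · intro a b hab
    calc G.dist v b ≤ G.dist v a + G.dist a b := hG.dist_triangle
      _ = G.dist v a + 1 := by rw [SimpleGraph.dist_eq_one_iff_adj.mpr hab]
  · intro i hi
    obtain ⟨p, hp⟩ := hG.exists_walk_length_eq_dist v z
    refine ⟨p.getVert i, ?_⟩
    have h1 : G.dist v (p.getVert i) ≤ i := by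
      have := SimpleGraph.dist_le (p.take i)
      refine this.trans ?_
      rw [SimpleGraph.Walk.take_length]
      exact min_le_left _ _
    have h2 : G.dist (p.getVert i) z ≤ G.dist v z - i := by
      have := SimpleGraph.dist_le (p.drop i)
      refine this.trans ?_
      rw [SimpleGraph.Walk.drop_length, hp]
    have h3 : G.dist v z ≤ G.dist v (p.getVert i) + G.dist (p.getVert i) z := hG.dist_triangle
    show G.dist v (p.getVert i) = i
    omega

theorem card_lb {T : Finset V} {m : ℕ} (f : V → ℕ) (h : ∀ j, j < m → ∃ t ∈ T, f t = j) :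
    m ≤ T.card := by
  classical
  have h1 : Finset.range m ⊆ T.image f := by
    intro j hj
    rw [Finset.mem_range] at hj
    obtain ⟨t, ht, rfl⟩ := h j hj
    exact Finset.mem_image_of_mem f ht
  calc m = (Finset.range m).card := (Finset.card_range m).symm
    _ ≤ (T.image f).card := Finset.card_le_card h1
    _ ≤ T.card := Finset.card_image_le

/-- If `T` dominates `u` then some member of `T` has level within one of that of `u`. -/
theorem near {G : SimpleGraph V} {lev : V → ℕ} {D : ℕ} (hL : Lev G lev D) {T : Set V} {u : V}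
    (h : u ∈ T ∨ ∃ a ∈ T, G.Adj a u) : ∃ t ∈ T, lev t ≤ lev u + 1 ∧ lev u ≤ lev t + 1 := by
  rcases h with h | ⟨a, ha, hau⟩
  · exact ⟨u, h, by omega, by omega⟩
  · exact ⟨a, ha, hL.adj _ _ hau.symm, hL.adj _ _ hau⟩

/-- trivial bound -/
theorem bound_trivial {G : SimpleGraph V} {lev : V → ℕ} {D g : ℕ} (hL : Lev G lev D)
    {T : Finset V} (hT : Dominates G (T : Set V) Set.univ) (hcard : T.card = g) :
    D ≤ 3 * g - 1 := by
  by_contra hcon
  have : g + 1 ≤ T.card := by
    apply card_lb (fun t => (lev t + 1) / 3)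
    intro j hj
    obtain ⟨u, hu⟩ := hL.ex (3 * j) (by omega)
    obtain ⟨t, ht, h1, h2⟩ := near hL (hT u (Set.mem_univ u))
    exact ⟨t, ht, by omega⟩
  omega

/-- `D ≥ 3g-1`, `g ≥ 2`: the pair (level 0, level 3) is impossible. -/
theorem no_pair_zero {G : SimpleGraph V} {lev : V → ℕ} {D g : ℕ} (hL : Lev G lev D)
    (hg : 2 ≤ g) (hD : 3 * g - 1 ≤ D) {x y : V} (hx : lev x = 0) (hy : lev y = 3)
    (hx0 : ∀ u, lev u = 0 → u = x)
    {T : Finset V} (hcard : T.card ≤ g) :
    (x ∈ T → (∀ u, u ≠ y → (u ∈ (T : Set V) ∨ ∃ a ∈ (T : Set V), G.Adj a u)) → False) ∧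
    (y ∈ T → (∀ u, u ≠ x → (u ∈ (T : Set V) ∨ ∃ a ∈ (T : Set V), G.Adj a u)) → False) := by
  constructor
  · intro hxT hT
    have : g + 1 ≤ T.card := by
      apply card_lb (fun t => (lev t + 2) / 3)
      intro j hj
      rcases Nat.eq_zero_or_pos j with rfl | hj0
      · exact ⟨x, hxT, by omega⟩
      · obtain ⟨u, hu⟩ := hL.ex (3 * j - 1) (by omega)
        obtain ⟨t, ht, h1, h2⟩ := near hL (hT u (by rintro rfl; omega))
        exact ⟨t, ht, by omega⟩
    omega
  · intro hyT hT
    have : g + 1 ≤ T.card := by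
      apply card_lb (fun t => if lev t ≤ 2 then 0 else if lev t = 3 then 1 else (lev t + 2) / 3)
      intro j hj
      rcases Nat.eq_zero_or_pos j with rfl | hj0
      · obtain ⟨u, hu⟩ := hL.ex 1 (by omega)
        obtain ⟨t, ht, h1, h2⟩ := near hL (hT u (by rintro rfl; omega))
        exact ⟨t, ht, by rw [if_pos (by omega)]⟩
      · rcases Nat.eq_or_lt_of_le hj0 with h1 | h1
        · exact ⟨y, hyT, by rw [if_neg (by omega), if_pos hy]; omega⟩
        · obtain ⟨u, hu⟩ := hL.ex (3 * j - 1) (by omega)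
          obtain ⟨t, ht, h1, h2⟩ := near hL (hT u (by rintro rfl; omega))
          exact ⟨t, ht, by rw [if_neg (by omega), if_neg (by omega)]; omega⟩
    omega

/-- `D ≥ 3g-2`, `g ≥ 3`: the pair (level 2, level 5) is impossible. -/
theorem no_pair_one {G : SimpleGraph V} {lev : V → ℕ} {D g : ℕ} (hL : Lev G lev D)
    (hg : 3 ≤ g) (hD : 3 * g - 2 ≤ D) {x y : V} (hx : lev x = 2) (hy : lev y = 5)
    {T : Finset V} (hcard : T.card ≤ g) :
    (x ∈ T → (∀ u, u ≠ y → (u ∈ (T : Set V) ∨ ∃ a ∈ (T : Set V), G.Adj a u)) → False) ∧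
    (y ∈ T → (∀ u, u ≠ x → (u ∈ (T : Set V) ∨ ∃ a ∈ (T : Set V), G.Adj a u)) → False) := by
  constructor
  · intro hxT hT
    have : g + 1 ≤ T.card := by
      apply card_lb (fun t => if lev t ≤ 1 then 0 else if lev t = 2 then 1 else lev t / 3 + 1)
      intro j hj
      rcases (by omega : j = 0 ∨ j = 1 ∨ 2 ≤ j) with rfl | rfl | hj2
      · obtain ⟨u, hu⟩ := hL.ex 0 (by omega)
        obtain ⟨t, ht, h1, h2⟩ := near hL (hT u (by rintro rfl; omega))
        exact ⟨t, ht, by rw [if_pos (by omega)]⟩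
      · exact ⟨x, hxT, by rw [if_neg (by omega), if_pos hx]⟩
      · obtain ⟨u, hu⟩ := hL.ex (3 * j - 2) (by omega)
        obtain ⟨t, ht, h1, h2⟩ := near hL (hT u (by rintro rfl; omega))
        exact ⟨t, ht, by rw [if_neg (by omega), if_neg (by omega)]; omega⟩
    omega
  · intro hyT hT
    have : g + 1 ≤ T.card := by
      apply card_lb (fun t => if lev t ≤ 1 then 0 else if lev t ≤ 4 then 1 else
        if lev t = 5 then 2 else lev t / 3 + 1)
      intro j hj
      rcases (by omega : j = 0 ∨ j = 1 ∨ j = 2 ∨ 3 ≤ j) with rfl | rfl | rfl | hj2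
      · obtain ⟨u, hu⟩ := hL.ex 0 (by omega)
        obtain ⟨t, ht, h1, h2⟩ := near hL (hT u (by rintro rfl; omega))
        exact ⟨t, ht, by rw [if_pos (by omega)]⟩
      · obtain ⟨u, hu⟩ := hL.ex 3 (by omega)
        obtain ⟨t, ht, h1, h2⟩ := near hL (hT u (by rintro rfl; omega))
        exact ⟨t, ht, by rw [if_neg (by omega), if_pos (by omega)]⟩
      · exact ⟨y, hyT, by rw [if_neg (by omega), if_neg (by omega), if_pos hy]⟩
      · obtain ⟨u, hu⟩ := hL.ex (3 * j - 2) (by omega)
        obtain ⟨t, ht, h1, h2⟩ := near hL (hT u (by rintro rfl; omega))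
        exact ⟨t, ht, by
          rw [if_neg (by omega), if_neg (by omega), if_neg (by omega)]; omega⟩
    omega

/-- Key lemma for `D = 3g-3`, `g ≥ 4`: the pair (level 2, level 5) forces a vertex `w` near
the far end dominating everything on levels `≥ D-2`. -/
theorem end_vertex {G : SimpleGraph V} {lev : V → ℕ} {D g : ℕ} (hL : Lev G lev D)
    (hg : 4 ≤ g) (hD : D = 3 * g - 3) {x y : V} (hx : lev x = 2) (hy : lev y = 5)
    {T : Finset V} (hcard : T.card ≤ g)
    (hT : (x ∈ T ∧ (∀ u, u ≠ y → (u ∈ (T : Set V) ∨ ∃ a ∈ (T : Set V), G.Adj a u))) ∨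
      (y ∈ T ∧ (∀ u, u ≠ x → (u ∈ (T : Set V) ∨ ∃ a ∈ (T : Set V), G.Adj a u)))) :
    ∃ w, ∀ u, D - 2 ≤ lev u → (u = w ∨ G.Adj w u) := by
  classical
  -- low elements
  have hlow : g - 1 ≤ (T.filter (fun t => lev t < 3 * g - 6)).card := by
    rcases hT with ⟨hxT, hT⟩ | ⟨hyT, hT⟩
    · apply card_lb (fun t => if lev t ≤ 1 then 0 else if lev t = 2 then 1 else lev t / 3 + 1)
      intro j hj
      rcases (by omega : j = 0 ∨ j = 1 ∨ 2 ≤ j) with rfl | rfl | hj2
      · obtain ⟨u, hu⟩ := hL.ex 0 (by omega)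
        obtain ⟨t, ht, h1, h2⟩ := near hL (hT u (by rintro rfl; omega))
        exact ⟨t, Finset.mem_filter.mpr ⟨ht, by omega⟩, by rw [if_pos (by omega)]⟩
      · exact ⟨x, Finset.mem_filter.mpr ⟨hxT, by omega⟩, by
          rw [if_neg (by omega), if_pos hx]⟩
      · obtain ⟨u, hu⟩ := hL.ex (3 * j - 2) (by omega)
        obtain ⟨t, ht, h1, h2⟩ := near hL (hT u (by rintro rfl; omega))
        exact ⟨t, Finset.mem_filter.mpr ⟨ht, by omega⟩, by
          rw [if_neg (by omega), if_neg (by omega)]; omega⟩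
    · apply card_lb (fun t => if lev t ≤ 1 then 0 else if lev t ≤ 4 then 1 else
        if lev t = 5 then 2 else lev t / 3 + 1)
      intro j hj
      rcases (by omega : j = 0 ∨ j = 1 ∨ j = 2 ∨ 3 ≤ j) with rfl | rfl | rfl | hj2
      · obtain ⟨u, hu⟩ := hL.ex 0 (by omega)
        obtain ⟨t, ht, h1, h2⟩ := near hL (hT u (by rintro rfl; omega))
        exact ⟨t, Finset.mem_filter.mpr ⟨ht, by omega⟩, by rw [if_pos (by omega)]⟩
      · obtain ⟨u, hu⟩ := hL.ex 3 (by omega)
        obtain ⟨t, ht, h1, h2⟩ := near hL (hT u (by rintro rfl; omega))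
        exact ⟨t, Finset.mem_filter.mpr ⟨ht, by omega⟩, by
          rw [if_neg (by omega), if_pos (by omega)]⟩
      · exact ⟨y, Finset.mem_filter.mpr ⟨hyT, by omega⟩, by
          rw [if_neg (by omega), if_neg (by omega), if_pos hy]⟩
      · obtain ⟨u, hu⟩ := hL.ex (3 * j - 2) (by omega)
        obtain ⟨t, ht, h1, h2⟩ := near hL (hT u (by rintro rfl; omega))
        exact ⟨t, Finset.mem_filter.mpr ⟨ht, by omega⟩, by
          rw [if_neg (by omega), if_neg (by omega), if_neg (by omega)]; omega⟩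
  have hhigh : (T.filter (fun t => ¬ lev t < 3 * g - 6)).card ≤ 1 := by
    have := Finset.card_filter_add_card_filter_not (s := T) (fun t => lev t < 3 * g - 6)
    omega
  have hdom : ∀ u, D - 2 ≤ lev u → (u ∈ (T : Set V) ∨ ∃ a ∈ (T : Set V), G.Adj a u) := by
    intro u hu
    rcases hT with ⟨hxT, hT⟩ | ⟨hyT, hT⟩
    · exact hT u (by rintro rfl; omega)
    · exact hT u (by rintro rfl; omega)
  obtain ⟨z, hz⟩ := hL.ex D le_rfl
  obtain ⟨w, hw, hw1, hw2⟩ := near hL (hdom z (by omega))
  refine ⟨w, ?_⟩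
  intro u hu
  have hwmem : w ∈ T.filter (fun t => ¬ lev t < 3 * g - 6) :=
    Finset.mem_filter.mpr ⟨hw, by omega⟩
  have huniq : ∀ t ∈ T, 3 * g - 6 ≤ lev t → t = w := by
    intro t ht htl
    exact Finset.card_le_one.mp hhigh t (Finset.mem_filter.mpr ⟨ht, by omega⟩) w hwmem
  rcases hdom u hu with h | ⟨a, ha, hau⟩
  · left
    exact huniq u h (by omega)
  · right
    have := hL.adj _ _ hau
    rw [huniq a ha (by omega)] at hau
    exact hau

/-- Upper bound on the diameter. -/
theorem upper_bound {G : SimpleGraph V} (hG : G.Connected) {k : ℕ} [Finite V]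
    (hk : IsConservative k G) :
    G.diam ≤ (if k = 2 then 2 else if k = 3 then 4 else if k = 4 then 6 else 3 * k - 7) := by
  classical
  obtain ⟨hk2, hdom, hpairs⟩ := hk
  obtain ⟨g, rfl⟩ : ∃ g, k = g + 1 := ⟨k - 1, by omega⟩
  have hg1 : 1 ≤ g := by omega
  have : Nonempty V := hG.nonempty
  obtain ⟨v, z, hvz⟩ := SimpleGraph.exists_dist_eq_diam (G := G)
  set D := G.diam with hDdef
  have hLv := lev_dist hG v z
  have hLz := lev_dist hG z v
  rw [hvz] at hLv
  rw [SimpleGraph.dist_comm, hvz] at hLz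
  -- a dominating set of size g
  have hne : {m | ∃ A : Finset V, A.card = m ∧ Dominates G (A : Set V) Set.univ}.Nonempty := by
    have := Fintype.ofFinite V
    exact ⟨_, Finset.univ, rfl, fun b _ => Or.inl (by simp)⟩
  obtain ⟨A, hA, hAdom⟩ := Nat.sInf_mem hne
  have hA' : A.card = g := by
    rw [hA]; unfold domNumber at hdom; omega
  have htriv := bound_trivial hLv hAdom hA'
  -- the key facts about pairs
  have hprec : ∀ x y : V, x ≠ y → ¬ G.Adj x y → ∃ T : Finset V, T.card ≤ g ∧
      ((x ∈ T ∧ (∀ u, u ≠ y → (u ∈ (T : Set V) ∨ ∃ a ∈ (T : Set V), G.Adj a u)) ∧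
        ¬ (y ∈ (T : Set V) ∨ ∃ a ∈ (T : Set V), G.Adj a y)) ∨
      (y ∈ T ∧ (∀ u, u ≠ x → (u ∈ (T : Set V) ∨ ∃ a ∈ (T : Set V), G.Adj a u)) ∧
        ¬ (x ∈ (T : Set V) ∨ ∃ a ∈ (T : Set V), G.Adj a x))) := by
    intro x y hxy hadj
    obtain ⟨S, hS, h | h⟩ := hpairs x y hxy hadj
    · refine ⟨insert x S, ?_, Or.inl ⟨Finset.mem_insert_self _ _, ?_, ?_⟩⟩
      · have := Finset.card_insert_le x S
        omega
      · intro u hu
        have := h.1 u (by simpa using hu)
        simpa using this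
      · have := h.2 y (by simp)
        intro hcon
        apply this
        intro b hb
        rw [Set.mem_singleton_iff] at hb
        subst hb
        simpa using hcon
    · refine ⟨insert y S, ?_, Or.inr ⟨Finset.mem_insert_self _ _, ?_, ?_⟩⟩
      · have := Finset.card_insert_le y S
        omega
      · intro u hu
        have := h.1 u (by simpa using hu)
        simpa using this
      · have := h.2 x (by simp)
        intro hcon
        apply this
        intro b hb
        rw [Set.mem_singleton_iff] at hb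
        subst hb
        simpa using hcon
  have nonadj : ∀ x y : V, G.dist v x + 3 ≤ G.dist v y → x ≠ y ∧ ¬ G.Adj x y := by
    intro x y hxy
    constructor
    · rintro rfl; omega
    · intro hadj
      have := hLv.adj _ _ hadj
      omega
  -- g ≥ 2 → D < 3g-1
  have h2 : 2 ≤ g → D < 3 * g - 1 := by
    intro hg
    by_contra hcon
    push Not at hcon
    obtain ⟨y, hy⟩ := hLv.ex 3 (by omega)
    obtain ⟨hne, hna⟩ := nonadj v y (by rw [SimpleGraph.dist_self]; omega)
    obtain ⟨T, hTc, h⟩ := hprec v y hne hna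
    have hz := no_pair_zero hLv hg hcon (x := v) (y := y) (by simp) hy
      (fun u hu => (hG.dist_eq_zero_iff.mp hu).symm) hTc
    rcases h with ⟨h1, h3, _⟩ | ⟨h1, h3, _⟩
    · exact hz.1 h1 h3
    · exact hz.2 h1 h3
  have h3 : 3 ≤ g → D < 3 * g - 2 := by
    intro hg
    by_contra hcon
    push Not at hcon
    obtain ⟨x, hx⟩ := hLv.ex 2 (by omega)
    obtain ⟨y, hy⟩ := hLv.ex 5 (by omega)
    obtain ⟨hne, hna⟩ := nonadj x y (by omega)
    obtain ⟨T, hTc, h⟩ := hprec x y hne hna
    have hz := no_pair_one hLv hg hcon (x := x) (y := y) hx hy hTc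
    rcases h with ⟨h1, h3, _⟩ | ⟨h1, h3, _⟩
    · exact hz.1 h1 h3
    · exact hz.2 h1 h3
  have h4 : 4 ≤ g → D ≠ 3 * g - 3 := by
    intro hg hD
    have hends : ∀ v z : V, Lev G (fun u => G.dist v u) D →
        ∃ w, ∀ u, D - 2 ≤ G.dist v u → (u = w ∨ G.Adj w u) := by
      intro v z hLv
      obtain ⟨x, hx⟩ := hLv.ex 2 (by omega)
      obtain ⟨y, hy⟩ := hLv.ex 5 (by omega)
      have hne : x ≠ y := by rintro rfl; omega
      have hna : ¬ G.Adj x y := by
        intro hadj
        have := hLv.adj _ _ hadj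
        omega
      obtain ⟨T, hTc, h⟩ := hprec x y hne hna
      refine end_vertex hLv hg hD hx hy hTc ?_
      rcases h with ⟨h1, h3, _⟩ | ⟨h1, h3, _⟩
      · exact Or.inl ⟨h1, h3⟩
      · exact Or.inr ⟨h1, h3⟩
    obtain ⟨w, hw⟩ := hends v z hLv
    obtain ⟨w', hw'⟩ := hends z v hLz
    have hzv : G.dist z v = D := by rw [SimpleGraph.dist_comm]; exact hvz
    -- w is within distance one of z, w' within distance one of v
    have e1 : D ≤ G.dist v w + 1 := by
      rcases hw z (by omega) with h | h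
      · rw [← h]; omega
      · have := hLv.adj _ _ h
        omega
    have e2 : G.dist v w' ≤ 1 := by
      rcases hw' v (by omega) with h | h
      · rw [← h, SimpleGraph.dist_self]; omega
      · have := (SimpleGraph.dist_eq_one_iff_adj.mpr h.symm)
        omega
    obtain ⟨hne, hna⟩ := nonadj w' w (by omega)
    -- w ≠ z, w' ≠ v
    have hwz : z ≠ w := by
      rintro rfl
      obtain ⟨u, hu⟩ := hLv.ex (D - 2) (by omega)
      rcases hw u (by omega) with h | h
      · rw [h] at hu; omega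
      · have := hLv.adj _ _ h.symm
        omega
    have hwv : v ≠ w' := by
      rintro rfl
      obtain ⟨u, hu⟩ := hLz.ex (D - 2) (by omega)
      rcases hw' u (by omega) with h | h
      · rw [h] at hu; omega
      · have := hLz.adj _ _ h.symm
        omega
    obtain ⟨T, hTc, h⟩ := hprec w' w hne hna
    rcases h with ⟨h1, h3, h5⟩ | ⟨h1, h3, h5⟩
    · apply h5
      rcases h3 z hwz with h | ⟨a, ha, haz⟩
      · rcases hw z (by omega) with h6 | h6
        · exact absurd h6 hwz
        · exact Or.inr ⟨z, h, h6.symm⟩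
      · have := hLv.adj _ _ haz
        rcases hw a (by omega) with h6 | h6
        · left; rw [← h6]; exact ha
        · exact Or.inr ⟨a, ha, h6.symm⟩
    · apply h5
      rcases h3 v hwv with h | ⟨a, ha, haz⟩
      · rcases hw' v (by omega) with h6 | h6
        · exact absurd h6 hwv
        · exact Or.inr ⟨v, h, h6.symm⟩
      · have := hLz.adj _ _ haz
        rcases hw' a (by omega) with h6 | h6
        · left; rw [← h6]; exact ha
        · exact Or.inr ⟨a, ha, h6.symm⟩
  split_ifs <;> omega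

/-! ### The extremal graphs -/

/-- The relation behind the graph: a 4-cycle `0-1-3-2-0` followed by the path `3-4-5-…`. -/
def R (i j : ℕ) : Prop :=
  (i = 0 ∧ j = 1) ∨ (i = 0 ∧ j = 2) ∨ (i = 1 ∧ j = 3) ∨ (i = 2 ∧ j = 3) ∨ (3 ≤ i ∧ j = i + 1)

instance (i j : ℕ) : Decidable (R i j) := by unfold R; infer_instance

/-- The 4-cycle `0-1-3-2-0` with the path `3-4-…-(n-1)` attached at `3`. -/
def capPath (n : ℕ) : SimpleGraph (Fin n) where
  Adj a b := R a b ∨ R b a
  symm := ⟨fun _ _ h => h.symm⟩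
  loopless := ⟨fun a h => by unfold R at h; omega⟩

instance (n : ℕ) : DecidableRel (capPath n).Adj := fun a b => by
  unfold capPath; infer_instance

theorem capPath_adj {n : ℕ} (a b : Fin n) : (capPath n).Adj a b ↔ R a b ∨ R b a := Iff.rfl

/-- distance lower bound -/
theorem le_dist_of_lipschitz {V : Type*} {G : SimpleGraph V} (f : V → ℕ)
    (hf : ∀ a b, G.Adj a b → f b ≤ f a + 1) {u v : V} (h : G.Reachable u v) :
    f v ≤ f u + G.dist u v := by
  obtain ⟨p, hp⟩ := h.exists_walk_length_eq_dist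
  rw [← hp]
  clear hp h
  induction p with
  | nil => simp
  | cons hadj q ih =>
    rw [SimpleGraph.Walk.length_cons]
    have := hf _ _ hadj
    omega

theorem capPath_connected {n : ℕ} (hn : 4 ≤ n) : (capPath n).Connected := by
  have h0 : ∀ i : ℕ, ∀ hi : i < n, (capPath n).Reachable ⟨0, by omega⟩ ⟨i, hi⟩ := by
    intro i
    induction i using Nat.strong_induction_on with
    | _ i ih =>
      intro hi
      rcases (by omega : i = 0 ∨ i = 1 ∨ i = 2 ∨ i = 3 ∨ 4 ≤ i) with rfl | rfl | rfl | rfl | h4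
      · exact SimpleGraph.Reachable.refl _
      · exact SimpleGraph.Adj.reachable (Or.inl (Or.inl ⟨rfl, rfl⟩))
      · exact SimpleGraph.Adj.reachable (Or.inl (Or.inr (Or.inl ⟨rfl, rfl⟩)))
      · refine (ih 1 (by omega) (by omega)).trans (SimpleGraph.Adj.reachable ?_)
        exact Or.inl (Or.inr (Or.inr (Or.inl ⟨rfl, rfl⟩)))
      · refine (ih (i - 1) (by omega) (by omega)).trans (SimpleGraph.Adj.reachable ?_)
        refine Or.inl (Or.inr (Or.inr (Or.inr (Or.inr ⟨?_, ?_⟩))))
        · show 3 ≤ i - 1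
          omega
        · show i = i - 1 + 1
          omega
  have : Nonempty (Fin n) := ⟨⟨0, by omega⟩⟩
  refine SimpleGraph.Connected.mk ?_
  intro a b
  exact (h0 a a.2).symm.trans (h0 b b.2)

theorem capPath_diam {n : ℕ} (hn : 4 ≤ n) : n - 2 ≤ (capPath n).diam := by
  have hc := capPath_connected hn
  have : Nonempty (Fin n) := ⟨⟨0, by omega⟩⟩
  have h1 := le_dist_of_lipschitz (G := capPath n)
    (fun i : Fin n => if (i : ℕ) = 1 then 1 else (i : ℕ) - 1) (by
      intro a b hab
      rw [capPath_adj] at hab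
      unfold R at hab
      split_ifs <;> omega) (hc.preconnected ⟨0, by omega⟩ ⟨n - 1, by omega⟩)
  have h2 := SimpleGraph.dist_le_diam (G := capPath n)
    (SimpleGraph.connected_iff_ediam_ne_top.mp hc) (u := ⟨0, by omega⟩) (v := ⟨n - 1, by omega⟩)
  simp only at h1
  rw [if_neg (by omega), if_neg (by omega)] at h1
  omega

/-- Padding a precisely dominating set to the exact size. -/
theorem pad {V : Type*} [Fintype V] {G : SimpleGraph V} {x y : V} {m : ℕ}
    (T : Finset V) (hx : x ∈ T) (hcard : T.card ≤ m + 1)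
    (hdom : ∀ u, u ≠ y → (u ∈ T ∨ ∃ a ∈ T, G.Adj a u))
    (hy : y ∉ T) (hy2 : ∀ a ∈ T, ¬ G.Adj a y)
    (W : Finset V) (hW : ∀ u, u = y ∨ G.Adj u y → u ∈ W) (hWc : m + W.card ≤ Fintype.card V) :
    ∃ S : Finset V, S.card = m ∧ PreciselyDominates G (insert x (S : Set V)) {y}ᶜ := by
  classical
  have hsub : T.erase x ⊆ (Finset.univ.filter (fun u => ¬ (u = y ∨ G.Adj u y))) := by
    intro u hu
    rw [Finset.mem_filter]
    refine ⟨Finset.mem_univ _, ?_⟩
    have huT := Finset.mem_of_mem_erase hu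
    rintro (rfl | h)
    · exact hy huT
    · exact hy2 u huT h
  have hc1 : (T.erase x).card ≤ m := by
    rw [Finset.card_erase_of_mem hx]; omega
  have hc2 : m ≤ (Finset.univ.filter (fun u => ¬ (u = y ∨ G.Adj u y))).card := by
    have h1 : (Finset.univ.filter (fun u => (u = y ∨ G.Adj u y))).card ≤ W.card :=
      Finset.card_le_card (by
        intro u hu
        exact hW u (Finset.mem_filter.mp hu).2)
    have h2 := Finset.card_filter_add_card_filter_not (s := (Finset.univ : Finset V))
      (fun u => (u = y ∨ G.Adj u y))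
    rw [Finset.card_univ] at h2
    omega
  obtain ⟨S, hS1, hS2, hS3⟩ := Finset.exists_subsuperset_card_eq hsub hc1 hc2
  refine ⟨S, hS3, ?_, ?_⟩
  · intro u hu
    have hsub2 : ∀ a ∈ T, a ∈ insert x (S : Set V) := by
      intro a ha
      by_cases hax : a = x
      · left; exact hax
      · right; exact hS1 (Finset.mem_erase.mpr ⟨hax, ha⟩)
    rcases hdom u (by simpa using hu) with h | ⟨a, ha, hau⟩
    · left; exact hsub2 u h
    · right; exact ⟨a, hsub2 a ha, hau⟩
  · intro v hv hcon
    have hvy : v = y := by simpa using hv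
    subst hvy
    rcases hcon v rfl with h | ⟨a, ha, hav⟩
    · rcases h with h | h
      · exact hy (h ▸ hx)
      · have := (Finset.mem_filter.mp (hS2 h)).2
        exact this (Or.inl rfl)
    · rcases ha with h | h
      · exact hy2 a (h ▸ hx) hav
      · have := (Finset.mem_filter.mp (hS2 h)).2
        exact this (Or.inr hav)

/-- Specialisation of `pad` to `capPath`: the set is given by a predicate on `ℕ`. -/
theorem pad_cap {g : ℕ} (hg : 3 ≤ g) {x y : Fin (3 * g - 2)} (P : ℕ → Prop) [DecidablePred P]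
    (f : ℕ → ℕ) (hx : P x)
    (hf : ∀ t, t < 3 * g - 2 → P t → f t < g)
    (hinj : ∀ t t', t < 3 * g - 2 → t' < 3 * g - 2 → P t → P t' → f t = f t' → t = t')
    (hdom : ∀ u, u < 3 * g - 2 → u ≠ y → (P u ∨ ∃ a, a < 3 * g - 2 ∧ P a ∧ (R a u ∨ R u a)))
    (hy : ¬ P y) (hy2 : ∀ a, a < 3 * g - 2 → P a → ¬ (R a y ∨ R y a)) :
    ∃ S : Finset (Fin (3 * g - 2)), S.card = g - 1 ∧
      PreciselyDominates (capPath (3 * g - 2)) (insert x (S : Set (Fin (3 * g - 2)))) {y}ᶜ := by
  classical
  apply pad (Finset.univ.filter (fun t : Fin (3 * g - 2) => P t)) (m := g - 1)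
    (W := Finset.univ.filter (fun t : Fin (3 * g - 2) => (t : ℕ) ≤ y + 2 ∧ (y : ℕ) ≤ t + 2))
  · exact Finset.mem_filter.mpr ⟨Finset.mem_univ _, hx⟩
  · have h1 : (Finset.univ.filter (fun t : Fin (3 * g - 2) => P t)).card
        ≤ (Finset.range g).card := by
      apply Finset.card_le_card_of_injOn (fun t : Fin (3 * g - 2) => f t)
      · intro t ht
        have := (Finset.mem_filter.mp ht).2
        simpa using hf t t.2 this
      · intro t ht t' ht' h
        have h1 := (Finset.mem_filter.mp ht).2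
        have h2 := (Finset.mem_filter.mp ht').2
        exact Fin.ext (hinj t t' t.2 t'.2 h1 h2 h)
    rw [Finset.card_range] at h1
    omega
  · intro u hu
    rcases hdom u u.2 (fun h => hu (Fin.ext h)) with h | ⟨a, ha, hPa, hR⟩
    · left; exact Finset.mem_filter.mpr ⟨Finset.mem_univ _, h⟩
    · right
      exact ⟨⟨a, ha⟩, Finset.mem_filter.mpr ⟨Finset.mem_univ _, hPa⟩, hR⟩
  · intro h
    exact hy (Finset.mem_filter.mp h).2
  · intro a ha
    exact hy2 a a.2 (Finset.mem_filter.mp ha).2
  · intro u hu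
    rw [Finset.mem_filter]
    refine ⟨Finset.mem_univ _, ?_⟩
    rcases hu with rfl | h
    · omega
    · rw [capPath_adj] at h
      unfold R at h
      omega
  · have h1 : (Finset.univ.filter
        (fun t : Fin (3 * g - 2) => (t : ℕ) ≤ y + 2 ∧ (y : ℕ) ≤ t + 2)).card
        ≤ (Finset.range 5).card := by
      apply Finset.card_le_card_of_injOn (fun t : Fin (3 * g - 2) => (t : ℕ) + 2 - y)
      · intro t ht
        have := (Finset.mem_filter.mp ht).2
        simp only [Finset.coe_range, Set.mem_Iio]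
        omega
      · intro t ht t' ht' h
        have h1 := (Finset.mem_filter.mp ht).2
        have h2 := (Finset.mem_filter.mp ht').2
        simp only at h
        exact Fin.ext (by omega)
    rw [Finset.card_range] at h1
    rw [Fintype.card_fin]
    omega

/-- Case 1: `3 ≤ x < y`, `y % 3 ≠ 2`. -/
theorem case1 {g : ℕ} (hg : 3 ≤ g) {x y : Fin (3 * g - 2)} (hx3 : 3 ≤ (x : ℕ))
    (hxy : (x : ℕ) + 2 ≤ y) (hy : (y : ℕ) % 3 ≠ 2) :
    ∃ S : Finset (Fin (3 * g - 2)), S.card = g - 1 ∧
      PreciselyDominates (capPath (3 * g - 2)) (insert x (S : Set (Fin (3 * g - 2)))) {y}ᶜ := by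
  have hxn := x.2
  have hyn := y.2
  obtain ⟨X, hX⟩ : ∃ X : ℕ, X = (x : ℕ) := ⟨_, rfl⟩
  obtain ⟨Y, hY⟩ : ∃ Y : ℕ, Y = (y : ℕ) := ⟨_, rfl⟩
  rw [← hX] at hx3 hxy hxn
  rw [← hY] at hxy hy hyn
  apply pad_cap hg
    (fun t => t = 0 ∨ (2 ≤ t ∧ t ≤ X ∧ t % 3 = X % 3) ∨
      (X < t ∧ t + 2 ≤ Y ∧ t % 3 = (Y + 1) % 3) ∨ (Y + 2 ≤ t ∧ t % 3 = (Y + 2) % 3))
    (fun t => if X < t ∧ t < Y then (t + 2) / 3 else (t + 1) / 3)
  · rw [← hX]; omega
  · intro t ht hP
    split_ifs <;> omega
  · intro t t' ht ht' hP hP' h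
    split_ifs at h <;> omega
  · intro u hu huy
    rw [← hY] at huy
    simp only [R]
    rcases (by omega : u < 3 ∨ (3 ≤ u ∧ u ≤ X) ∨ (u = X + 1) ∨ (X + 2 ≤ u ∧ u < Y) ∨ Y < u) with
      h | h | h | h | h
    · rcases (by omega : u = 0 ∨ u = 1 ∨ u = 2) with h | h | h
      · left; omega
      · right; exact ⟨0, by omega, by omega, by omega⟩
      · right; exact ⟨0, by omega, by omega, by omega⟩
    · rcases (by omega : (X - u) % 3 = 0 ∨ (X - u) % 3 = 1 ∨ (X - u) % 3 = 2) with h1 | h1 | h1
      · left; omega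
      · right; exact ⟨u + 1, by omega, by omega, by omega⟩
      · right; exact ⟨u - 1, by omega, by omega, by omega⟩
    · right; exact ⟨X, by omega, by omega, by omega⟩
    · rcases (by omega : (Y - 1 - u) % 3 = 0 ∨ (Y - 1 - u) % 3 = 1 ∨ (Y - 1 - u) % 3 = 2) with
        h1 | h1 | h1
      · right; exact ⟨u - 1, by omega, by omega, by omega⟩
      · left; omega
      · right; exact ⟨u + 1, by omega, by omega, by omega⟩
    · rcases (by omega : (u - Y) % 3 = 1 ∨ (u - Y) % 3 = 2 ∨ (u - Y) % 3 = 0) with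
        h1 | h1 | h1
      · right; exact ⟨u + 1, by omega, by omega, by omega⟩
      · left; omega
      · right; exact ⟨u - 1, by omega, by omega, by omega⟩
  · rw [← hY]; omega
  · intro a ha hP
    rw [← hY]
    simp only [R]
    omega

/-- Case 2: `3 ≤ x < y`, `y % 3 = 2`; here `y ∈ T` and `x` is avoided. -/
theorem case2 {g : ℕ} (hg : 3 ≤ g) {x y : Fin (3 * g - 2)} (hx3 : 3 ≤ (x : ℕ))
    (hxy : (x : ℕ) + 2 ≤ y) (hy : (y : ℕ) % 3 = 2) :
    ∃ S : Finset (Fin (3 * g - 2)), S.card = g - 1 ∧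
      PreciselyDominates (capPath (3 * g - 2)) (insert y (S : Set (Fin (3 * g - 2)))) {x}ᶜ := by
  have hxn := x.2
  have hyn := y.2
  obtain ⟨X, hX⟩ : ∃ X : ℕ, X = (x : ℕ) := ⟨_, rfl⟩
  obtain ⟨Y, hY⟩ : ∃ Y : ℕ, Y = (y : ℕ) := ⟨_, rfl⟩
  rw [← hX] at hx3 hxy hxn
  rw [← hY] at hxy hy hyn
  apply pad_cap hg
    (fun t => t = 0 ∨ (2 ≤ t ∧ t + 2 ≤ X ∧ t % 3 = (X + 1) % 3) ∨
      (X + 2 ≤ t ∧ t < Y ∧ t % 3 = (X + 2) % 3) ∨ (Y ≤ t ∧ t % 3 = 2))
    (fun t => (t + 1) / 3)
  · rw [← hY]; omega
  · intro t ht hP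
    omega
  · intro t t' ht ht' hP hP' h
    omega
  · intro u hu hux
    rw [← hX] at hux
    simp only [R]
    rcases (by omega : u < 3 ∨ (3 ≤ u ∧ u < X) ∨ (X < u ∧ u < Y) ∨ Y ≤ u) with
      h | h | h | h
    · rcases (by omega : u = 0 ∨ u = 1 ∨ u = 2) with h | h | h
      · left; omega
      · right; exact ⟨0, by omega, by omega, by omega⟩
      · right; exact ⟨0, by omega, by omega, by omega⟩
    · rcases (by omega : (X - 1 - u) % 3 = 0 ∨ (X - 1 - u) % 3 = 1 ∨ (X - 1 - u) % 3 = 2) with
        h1 | h1 | h1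
      · right; exact ⟨u - 1, by omega, by omega, by omega⟩
      · left; omega
      · right; exact ⟨u + 1, by omega, by omega, by omega⟩
    · rcases (by omega : (u - X) % 3 = 1 ∨ (u - X) % 3 = 2 ∨ (u - X) % 3 = 0) with
        h1 | h1 | h1
      · right; exact ⟨u + 1, by omega, by omega, by omega⟩
      · left; omega
      · right; exact ⟨u - 1, by omega, by omega, by omega⟩
    · rcases (by omega : u % 3 = 2 ∨ u % 3 = 0 ∨ u % 3 = 1) with
        h1 | h1 | h1
      · left; omega
      · right; exact ⟨u - 1, by omega, by omega, by omega⟩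
      · right; exact ⟨u + 1, by omega, by omega, by omega⟩
  · rw [← hX]; omega
  · intro a ha hP
    rw [← hX]
    simp only [R]
    omega

/-- Case 3: `x = 0`, `3 ≤ y`, `y % 3 ≠ 2`. -/
theorem case3 {g : ℕ} (hg : 3 ≤ g) {x y : Fin (3 * g - 2)} (hx0 : (x : ℕ) = 0)
    (hy3 : 3 ≤ (y : ℕ)) (hy : (y : ℕ) % 3 ≠ 2) :
    ∃ S : Finset (Fin (3 * g - 2)), S.card = g - 1 ∧
      PreciselyDominates (capPath (3 * g - 2)) (insert x (S : Set (Fin (3 * g - 2)))) {y}ᶜ := by
  have hyn := y.2
  obtain ⟨Y, hY⟩ : ∃ Y : ℕ, Y = (y : ℕ) := ⟨_, rfl⟩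
  rw [← hY] at hy hyn hy3
  apply pad_cap hg
    (fun t => t = 0 ∨ (2 ≤ t ∧ t + 2 ≤ Y ∧ t % 3 = (Y + 1) % 3) ∨
      (Y + 2 ≤ t ∧ t % 3 = (Y + 2) % 3))
    (fun t => (t + 1) / 3)
  · omega
  · intro t ht hP
    omega
  · intro t t' ht ht' hP hP' h
    omega
  · intro u hu huy
    rw [← hY] at huy
    simp only [R]
    rcases (by omega : u < 3 ∨ (3 ≤ u ∧ u < Y) ∨ Y < u) with
      h | h | h
    · rcases (by omega : u = 0 ∨ u = 1 ∨ u = 2) with h | h | h
      · left; omega
      · right; exact ⟨0, by omega, by omega, by omega⟩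
      · right; exact ⟨0, by omega, by omega, by omega⟩
    · rcases (by omega : (Y - 1 - u) % 3 = 0 ∨ (Y - 1 - u) % 3 = 1 ∨ (Y - 1 - u) % 3 = 2) with
        h1 | h1 | h1
      · right; exact ⟨u - 1, by omega, by omega, by omega⟩
      · left; omega
      · right; exact ⟨u + 1, by omega, by omega, by omega⟩
    · rcases (by omega : (u - Y) % 3 = 1 ∨ (u - Y) % 3 = 2 ∨ (u - Y) % 3 = 0) with
        h1 | h1 | h1
      · right; exact ⟨u + 1, by omega, by omega, by omega⟩
      · left; omega
      · right; exact ⟨u - 1, by omega, by omega, by omega⟩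
  · rw [← hY]; omega
  · intro a ha hP
    rw [← hY]
    simp only [R]
    omega

/-- Case 4: `x = 0`, `y % 3 = 2`, `5 ≤ y`: `y ∈ T`, avoid `0`. -/
theorem case4 {g : ℕ} (hg : 3 ≤ g) {x y : Fin (3 * g - 2)} (hx0 : (x : ℕ) = 0)
    (hy3 : 3 ≤ (y : ℕ)) (hy : (y : ℕ) % 3 = 2) :
    ∃ S : Finset (Fin (3 * g - 2)), S.card = g - 1 ∧
      PreciselyDominates (capPath (3 * g - 2)) (insert y (S : Set (Fin (3 * g - 2)))) {x}ᶜ := by
  have hyn := y.2
  obtain ⟨Y, hY⟩ : ∃ Y : ℕ, Y = (y : ℕ) := ⟨_, rfl⟩
  rw [← hY] at hy hyn hy3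
  apply pad_cap hg
    (fun t => (3 ≤ t ∧ t < Y ∧ t % 3 = 0) ∨ (Y ≤ t ∧ t % 3 = 2))
    (fun t => (t + 1) / 3)
  · rw [← hY]; omega
  · intro t ht hP
    omega
  · intro t t' ht ht' hP hP' h
    omega
  · intro u hu hux
    rw [hx0] at hux
    simp only [R]
    rcases (by omega : u < 3 ∨ (3 ≤ u ∧ u < Y) ∨ Y ≤ u) with
      h | h | h
    · right; exact ⟨3, by omega, by omega, by omega⟩
    · rcases (by omega : u % 3 = 2 ∨ u % 3 = 0 ∨ u % 3 = 1) with
        h1 | h1 | h1
      · right; exact ⟨u + 1, by omega, by omega, by omega⟩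
      · left; omega
      · right; exact ⟨u - 1, by omega, by omega, by omega⟩
    · rcases (by omega : u % 3 = 2 ∨ u % 3 = 0 ∨ u % 3 = 1) with
        h1 | h1 | h1
      · left; omega
      · right; exact ⟨u - 1, by omega, by omega, by omega⟩
      · right; exact ⟨u + 1, by omega, by omega, by omega⟩
  · rw [hx0]; omega
  · intro a ha hP
    rw [hx0]
    simp only [R]
    omega

/-- Case 5: `x ∈ {1,2}`, `4 ≤ y`, `y % 3 ≠ 2`. -/
theorem case5 {g : ℕ} (hg : 3 ≤ g) {x y : Fin (3 * g - 2)} (hx0 : (x : ℕ) = 1 ∨ (x : ℕ) = 2)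
    (hy3 : 4 ≤ (y : ℕ)) (hy : (y : ℕ) % 3 ≠ 2) :
    ∃ S : Finset (Fin (3 * g - 2)), S.card = g - 1 ∧
      PreciselyDominates (capPath (3 * g - 2)) (insert x (S : Set (Fin (3 * g - 2)))) {y}ᶜ := by
  have hyn := y.2
  obtain ⟨Y, hY⟩ : ∃ Y : ℕ, Y = (y : ℕ) := ⟨_, rfl⟩
  rw [← hY] at hy hyn hy3
  apply pad_cap hg
    (fun t => t = 1 ∨ t = 2 ∨ (3 ≤ t ∧ t + 2 ≤ Y ∧ t % 3 = (Y + 1) % 3) ∨
      (Y + 2 ≤ t ∧ t % 3 = (Y + 2) % 3))
    (fun t => if t = 1 then 0 else if t < Y then (t + 2) / 3 else (t + 1) / 3)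
  · omega
  · intro t ht hP
    split_ifs <;> omega
  · intro t t' ht ht' hP hP' h
    split_ifs at h <;> omega
  · intro u hu huy
    rw [← hY] at huy
    simp only [R]
    rcases (by omega : u < 4 ∨ (4 ≤ u ∧ u < Y) ∨ Y < u) with
      h | h | h
    · rcases (by omega : u = 0 ∨ u = 1 ∨ u = 2 ∨ u = 3) with h | h | h | h
      · right; exact ⟨1, by omega, by omega, by omega⟩
      · left; omega
      · left; omega
      · right; exact ⟨1, by omega, by omega, by omega⟩
    · rcases (by omega : (Y - 1 - u) % 3 = 0 ∨ (Y - 1 - u) % 3 = 1 ∨ (Y - 1 - u) % 3 = 2) with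
        h1 | h1 | h1
      · right; exact ⟨u - 1, by omega, by omega, by omega⟩
      · left; omega
      · right; exact ⟨u + 1, by omega, by omega, by omega⟩
    · rcases (by omega : (u - Y) % 3 = 1 ∨ (u - Y) % 3 = 2 ∨ (u - Y) % 3 = 0) with
        h1 | h1 | h1
      · right; exact ⟨u + 1, by omega, by omega, by omega⟩
      · left; omega
      · right; exact ⟨u - 1, by omega, by omega, by omega⟩
  · rw [← hY]; omega
  · intro a ha hP
    rw [← hY]
    simp only [R]
    omega

/-- Case 6: `x ∈ {1,2}` avoided; `T` contains all numbers `≥ 5` congruent to 2 mod 3 and `3 - x`. -/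
theorem case6 {g : ℕ} (hg : 3 ≤ g) {x y : Fin (3 * g - 2)} (hx0 : (x : ℕ) = 1 ∨ (x : ℕ) = 2)
    (hy : (y : ℕ) = 3 - x ∨ (5 ≤ (y : ℕ) ∧ (y : ℕ) % 3 = 2)) :
    ∃ S : Finset (Fin (3 * g - 2)), S.card = g - 1 ∧
      PreciselyDominates (capPath (3 * g - 2)) (insert y (S : Set (Fin (3 * g - 2)))) {x}ᶜ := by
  have hyn := y.2
  obtain ⟨Y, hY⟩ : ∃ Y : ℕ, Y = (y : ℕ) := ⟨_, rfl⟩
  obtain ⟨X, hX⟩ : ∃ X : ℕ, X = (x : ℕ) := ⟨_, rfl⟩
  rw [← hX] at hx0 hy
  rw [← hY] at hy hyn
  apply pad_cap hg
    (fun t => t = 3 - X ∨ (5 ≤ t ∧ t % 3 = 2))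
    (fun t => if t < 5 then 0 else (t - 2) / 3)
  · rw [← hY]; omega
  · intro t ht hP
    split_ifs <;> omega
  · intro t t' ht ht' hP hP' h
    split_ifs at h <;> omega
  · intro u hu hux
    rw [← hX] at hux
    simp only [R]
    rcases (by omega : u < 4 ∨ 4 ≤ u) with
      h | h
    · rcases (by omega : u = 0 ∨ u = 3 - X ∨ u = 3) with h | h | h
      · right; exact ⟨3 - X, by omega, by omega, by omega⟩
      · left; omega
      · right; exact ⟨3 - X, by omega, by omega, by omega⟩
    · rcases (by omega : u % 3 = 2 ∨ u % 3 = 0 ∨ u % 3 = 1) with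
        h1 | h1 | h1
      · left; omega
      · right; exact ⟨u - 1, by omega, by omega, by omega⟩
      · right; exact ⟨u + 1, by omega, by omega, by omega⟩
  · rw [← hX]; omega
  · intro a ha hP
    rw [← hX]
    simp only [R]
    omega

/-- All pairs. -/
theorem capPath_pairs {g : ℕ} (hg : 3 ≤ g) (x y : Fin (3 * g - 2)) (hne : x ≠ y)
    (hadj : ¬ (capPath (3 * g - 2)).Adj x y) :
    ∃ S : Finset (Fin (3 * g - 2)), S.card = g - 1 ∧
      (PreciselyDominates (capPath (3 * g - 2)) (insert x (S : Set (Fin (3 * g - 2)))) {y}ᶜ ∨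
       PreciselyDominates (capPath (3 * g - 2)) (insert y (S : Set (Fin (3 * g - 2)))) {x}ᶜ) := by
  have main : ∀ x y : Fin (3 * g - 2), (x : ℕ) < y → ¬ (capPath (3 * g - 2)).Adj x y →
      ∃ S : Finset (Fin (3 * g - 2)), S.card = g - 1 ∧
      (PreciselyDominates (capPath (3 * g - 2)) (insert x (S : Set (Fin (3 * g - 2)))) {y}ᶜ ∨
       PreciselyDominates (capPath (3 * g - 2)) (insert y (S : Set (Fin (3 * g - 2)))) {x}ᶜ) := by
    intro x y hxy hadj
    rw [capPath_adj] at hadj
    unfold R at hadj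
    rcases (by omega : 3 ≤ (x : ℕ) ∨ (x : ℕ) = 0 ∨ ((x : ℕ) = 1 ∨ (x : ℕ) = 2)) with h | h | h
    · by_cases hy : (y : ℕ) % 3 = 2
      · obtain ⟨S, hS, h1⟩ := case2 hg h (by omega) hy
        exact ⟨S, hS, Or.inr h1⟩
      · obtain ⟨S, hS, h1⟩ := case1 hg h (by omega) hy
        exact ⟨S, hS, Or.inl h1⟩
    · by_cases hy : (y : ℕ) % 3 = 2
      · obtain ⟨S, hS, h1⟩ := case4 hg h (by omega) hy
        exact ⟨S, hS, Or.inr h1⟩
      · obtain ⟨S, hS, h1⟩ := case3 hg h (by omega) hy
        exact ⟨S, hS, Or.inl h1⟩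
    · by_cases hy : (y : ℕ) % 3 = 2
      · obtain ⟨S, hS, h1⟩ := case6 (x := x) (y := y) hg h (by omega)
        exact ⟨S, hS, Or.inr h1⟩
      · obtain ⟨S, hS, h1⟩ := case5 hg h (by omega) hy
        exact ⟨S, hS, Or.inl h1⟩
  rcases Nat.lt_or_gt_of_ne (fun h => hne (Fin.ext h)) with h | h
  · exact main x y h hadj
  · obtain ⟨S, hS, h1 | h1⟩ := main y x h (fun h => hadj h.symm)
    · exact ⟨S, hS, Or.inr h1⟩
    · exact ⟨S, hS, Or.inl h1⟩

/-- domination number from an explicit dominating set and a lower bound. -/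
theorem domNumber_eq {V : Type*} {G : SimpleGraph V} {g : ℕ}
    (h1 : ∃ A : Finset V, A.card ≤ g ∧ Dominates G (A : Set V) Set.univ)
    (h2 : ∀ A : Finset V, Dominates G (A : Set V) Set.univ → g ≤ A.card) :
    domNumber G = g := by
  unfold domNumber
  obtain ⟨A, hA, hAd⟩ := h1
  have hA' : A.card = g := le_antisymm hA (h2 A hAd)
  apply le_antisymm
  · exact Nat.sInf_le ⟨A, hA', hAd⟩
  · apply le_csInf
    · exact ⟨_, A, rfl, hAd⟩
    · rintro m ⟨B, rfl, hB⟩
      exact h2 B hB

theorem capPath_dom_upper {g : ℕ} (hg : 3 ≤ g) :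
    ∃ A : Finset (Fin (3 * g - 2)), A.card ≤ g ∧
      Dominates (capPath (3 * g - 2)) (A : Set (Fin (3 * g - 2))) Set.univ := by
  refine ⟨Finset.univ.filter (fun t : Fin (3 * g - 2) => (t : ℕ) % 3 = 0), ?_, ?_⟩
  · have h1 : (Finset.univ.filter (fun t : Fin (3 * g - 2) => (t : ℕ) % 3 = 0)).card
        ≤ (Finset.range g).card := by
      apply Finset.card_le_card_of_injOn (fun t : Fin (3 * g - 2) => (t : ℕ) / 3)
      · intro t ht
        have := (Finset.mem_filter.mp ht).2
        have := t.2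
        simp only [Finset.coe_range, Set.mem_Iio]
        omega
      · intro t ht t' ht' h
        have h1 := (Finset.mem_filter.mp ht).2
        have h2 := (Finset.mem_filter.mp ht').2
        simp only at h
        exact Fin.ext (by omega)
    rwa [Finset.card_range] at h1
  · intro u _
    have hu := u.2
    have hmem : ∀ a : Fin (3 * g - 2), (a : ℕ) % 3 = 0 →
        a ∈ ((Finset.univ.filter (fun t : Fin (3 * g - 2) => (t : ℕ) % 3 = 0) :
          Finset (Fin (3 * g - 2))) : Set (Fin (3 * g - 2))) := by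
      intro a ha
      simp [ha]
    rcases (by omega : (u : ℕ) % 3 = 0 ∨ (u : ℕ) = 1 ∨ (4 ≤ (u : ℕ) ∧ (u : ℕ) % 3 = 1) ∨
      (u : ℕ) % 3 = 2) with h | h | h | h
    · left; exact hmem u h
    · right
      refine ⟨⟨0, by omega⟩, hmem _ rfl, ?_⟩
      rw [capPath_adj]; unfold R; left; left; exact ⟨rfl, h⟩
    · right
      refine ⟨⟨(u : ℕ) - 1, by omega⟩, hmem _ (by simp only; omega), ?_⟩
      rw [capPath_adj]; unfold R; left; right; right; right; right; exact ⟨by show 3 ≤ (u : ℕ) - 1; omega, by show (u : ℕ) = (u : ℕ) - 1 + 1; omega⟩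
    · right
      refine ⟨⟨(u : ℕ) + 1, by omega⟩, hmem _ (by simp only; omega), ?_⟩
      rw [capPath_adj]; unfold R
      have e : ((⟨(u : ℕ) + 1, by omega⟩ : Fin (3 * g - 2)) : ℕ) = (u : ℕ) + 1 := rfl
      rw [e]; omega

theorem capPath_dom_lower {g : ℕ} (hg : 3 ≤ g) (A : Finset (Fin (3 * g - 2)))
    (hA : Dominates (capPath (3 * g - 2)) (A : Set (Fin (3 * g - 2))) Set.univ) : g ≤ A.card := by
  classical
  by_contra hcon
  push Not at hcon
  -- membership in ℕ terms
  have hd : ∀ u, u < 3 * g - 2 → ∃ a : Fin (3 * g - 2), a ∈ A ∧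
      ((a : ℕ) = u ∨ R a u ∨ R u a) := by
    intro u hu
    rcases hA ⟨u, hu⟩ (Set.mem_univ _) with h | ⟨a, ha, hau⟩
    · exact ⟨⟨u, hu⟩, h, Or.inl rfl⟩
    · exact ⟨a, ha, Or.inr hau⟩
  -- bucket function
  let f : Fin (3 * g - 2) → ℕ := fun t =>
    if (t : ℕ) ≤ 2 then 0 else if (t : ℕ) = 3 then g - 1 else ((t : ℕ) - 1) / 3
  have hf : ∀ t, f t = if (t : ℕ) ≤ 2 then 0 else if (t : ℕ) = 3 then g - 1
    else ((t : ℕ) - 1) / 3 := fun t => rfl
  have himg : Finset.range (g - 1) ⊆ A.image f := by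
    intro j hj
    rw [Finset.mem_range] at hj
    rw [Finset.mem_image]
    rcases Nat.eq_zero_or_pos j with rfl | hj0
    · obtain ⟨a, ha, h⟩ := hd 0 (by omega)
      refine ⟨a, ha, ?_⟩
      rw [hf, if_pos]
      unfold R at h; omega
    · obtain ⟨a, ha, h⟩ := hd (3 * j + 2) (by omega)
      refine ⟨a, ha, ?_⟩
      unfold R at h
      rw [hf, if_neg (by omega), if_neg (by omega)]
      omega
  have hc1 : (A.image f).card ≤ A.card := Finset.card_image_le
  have hc2 : g - 1 ≤ (A.image f).card := by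
    have := Finset.card_le_card himg
    rwa [Finset.card_range] at this
  have hinj : Set.InjOn f A := Finset.card_image_iff.mp (by omega)
  have himg2 : Finset.range (g - 1) = A.image f :=
    Finset.eq_of_subset_of_card_le himg (by rw [Finset.card_range]; omega)
  -- 3 ∉ A
  have h3 : ∀ a ∈ A, (a : ℕ) ≠ 3 := by
    intro a ha h
    have : f a ∈ Finset.range (g - 1) := by
      rw [himg2]; exact Finset.mem_image_of_mem f ha
    rw [hf, if_neg (by omega), if_pos h, Finset.mem_range] at this
    omega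
  -- uniqueness in buckets
  have huniq : ∀ a ∈ A, ∀ b ∈ A, f a = f b → (a : ℕ) = b := by
    intro a ha b hb h
    rw [hinj ha hb h]
  -- chain
  have hchain : ∀ j, 1 ≤ j → j ≤ g - 2 → ∃ a ∈ A, (a : ℕ) = 3 * j + 1 := by
    intro j
    induction j with
    | zero => intro h; omega
    | succ j ih =>
      intro _ hj
      rcases Nat.eq_zero_or_pos j with rfl | hj0
      · -- 0 ∈ A
        have h0 : ∃ a ∈ A, (a : ℕ) = 0 := by
          obtain ⟨a, ha, h⟩ := hd 1 (by omega)
          obtain ⟨b, hb, h'⟩ := hd 2 (by omega)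
          have ha3 := h3 a ha
          have hb3 := h3 b hb
          unfold R at h h'
          have hab := huniq a ha b hb (by
            rw [hf, hf, if_pos (by omega), if_pos (by omega)])
          exact ⟨a, ha, by omega⟩
        obtain ⟨z, hz, hz0⟩ := h0
        obtain ⟨a, ha, h⟩ := hd 3 (by omega)
        have ha3 := h3 a ha
        unfold R at h
        refine ⟨a, ha, ?_⟩
        by_contra hne
        have := huniq a ha z hz (by
          rw [hf, hf, if_pos (by omega), if_pos (by omega)])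
        omega
      · obtain ⟨z, hz, hz0⟩ := ih hj0 (by omega)
        obtain ⟨a, ha, h⟩ := hd (3 * j + 3) (by omega)
        unfold R at h
        refine ⟨a, ha, ?_⟩
        by_contra hne
        have := huniq a ha z hz (by
          rw [hf, hf, if_neg (by omega), if_neg (by omega), if_neg (by omega), if_neg (by omega)]
          omega)
        omega
  obtain ⟨z, hz, hz0⟩ := hchain (g - 2) (by omega) le_rfl
  obtain ⟨a, ha, h⟩ := hd (3 * g - 3) (by omega)
  have ha2 := a.2
  unfold R at h
  have := huniq a ha z hz (by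
    rw [hf, hf, if_neg (by omega), if_neg (by omega), if_neg (by omega), if_neg (by omega)]
    omega)
  omega

theorem capPath_conservative {g : ℕ} (hg : 3 ≤ g) :
    IsConservative (g + 1) (capPath (3 * g - 2)) := by
  refine ⟨by omega, ?_, ?_⟩
  · exact domNumber_eq (capPath_dom_upper hg) (capPath_dom_lower hg)
  · intro x y hne hadj
    exact capPath_pairs hg x y hne hadj

/-- decidable closed adjacency -/
def cl (n : ℕ) (a b : Fin n) : Bool := decide ((a : ℕ) = b ∨ R a b ∨ R b a)

theorem cl_iff {n : ℕ} (a b : Fin n) : cl n a b = true ↔ (a = b ∨ (capPath n).Adj a b) := by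
  unfold cl
  rw [decide_eq_true_iff, capPath_adj, Fin.ext_iff]

theorem small8 : ∀ x y : Fin 8, x < y → cl 8 x y = false → ∃ s t : Fin 8, s < t ∧
    (((∀ u, u = y ∨ cl 8 x u = true ∨ cl 8 s u = true ∨ cl 8 t u = true) ∧
      cl 8 s y = false ∧ cl 8 t y = false) ∨
     ((∀ u, u = x ∨ cl 8 y u = true ∨ cl 8 s u = true ∨ cl 8 t u = true) ∧
      cl 8 s x = false ∧ cl 8 t x = false)) := by
  decide +kernel

theorem small6 : ∀ x y : Fin 6, x < y → cl 6 x y = false → ∃ s : Fin 6,
    (((∀ u, u = y ∨ cl 6 x u = true ∨ cl 6 s u = true) ∧ cl 6 s y = false) ∨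
     ((∀ u, u = x ∨ cl 6 y u = true ∨ cl 6 s u = true) ∧ cl 6 s x = false)) := by
  decide +kernel

theorem low8 : ∀ s t : Fin 8, ∃ u, cl 8 s u = false ∧ cl 8 t u = false := by
  decide +kernel

theorem low6 : ∀ s : Fin 6, ∃ u, cl 6 s u = false := by
  decide +kernel

theorem up8 : ∃ r s t : Fin 8, r < s ∧ s < t ∧
    ∀ u, cl 8 r u = true ∨ cl 8 s u = true ∨ cl 8 t u = true := by
  decide +kernel

theorem up6 : ∃ s t : Fin 6, s < t ∧ ∀ u, cl 6 s u = true ∨ cl 6 t u = true := by
  decide +kernel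

theorem cl_symm {n : ℕ} (a b : Fin n) : cl n a b = cl n b a := by
  rw [Bool.eq_iff_iff, cl_iff, cl_iff]
  constructor
  · rintro (rfl | h)
    · exact Or.inl rfl
    · exact Or.inr h.symm
  · rintro (rfl | h)
    · exact Or.inl rfl
    · exact Or.inr h.symm

theorem cl_false {n : ℕ} {a b : Fin n} (h : cl n a b = false) :
    a ≠ b ∧ ¬ (capPath n).Adj a b := by
  have : ¬ (a = b ∨ (capPath n).Adj a b) := by
    rw [← cl_iff, h]; simp
  push Not at this
  exact this

/-- from the boolean data to precise domination. -/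
theorem prec_of_bool {n : ℕ} {x y : Fin n} (S : Finset (Fin n)) (hxy : cl n x y = false)
    (h1 : ∀ u, u = y ∨ ∃ a, (a = x ∨ a ∈ S) ∧ cl n a u = true)
    (h2 : ∀ a ∈ S, cl n a y = false) :
    PreciselyDominates (capPath n) (insert x (S : Set (Fin n))) {y}ᶜ := by
  constructor
  · intro u hu
    have hu' : u ≠ y := by simpa using hu
    rcases h1 u with h | ⟨a, ha, hau⟩
    · exact absurd h hu'
    · have ha' : a ∈ insert x (S : Set (Fin n)) := ha
      rcases (cl_iff a u).mp hau with rfl | h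
      · left; exact ha'
      · right; exact ⟨a, ha', h⟩
  · intro v hv hcon
    have hvy : v = y := by simpa using hv
    subst hvy
    have key : ∀ a, a ∈ insert x (S : Set (Fin n)) → cl n a v = false := by
      intro a ha
      rcases ha with rfl | h
      · exact hxy
      · exact h2 a h
    rcases hcon v rfl with h | ⟨a, ha, hav⟩
    · exact (cl_false (key v h)).1 rfl
    · exact (cl_false (key a ha)).2 hav

theorem conservative8 : IsConservative 4 (capPath 8) := by
  classical
  refine ⟨by omega, ?_, ?_⟩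
  · apply domNumber_eq
    · obtain ⟨r, s, t, hrs, hst, h⟩ := up8
      refine ⟨{r, s, t}, Finset.card_le_three, ?_⟩
      intro u _
      rcases h u with h | h | h
      · rcases (cl_iff _ _).mp h with rfl | h
        · left; simp
        · right; exact ⟨r, by simp, h⟩
      · rcases (cl_iff _ _).mp h with rfl | h
        · left; simp
        · right; exact ⟨s, by simp, h⟩
      · rcases (cl_iff _ _).mp h with rfl | h
        · left; simp
        · right; exact ⟨t, by simp, h⟩
    · intro A hA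
      by_contra hcon
      push Not at hcon
      -- A ⊆ {s, t}
      have h2 : ∃ s t : Fin 8, A ⊆ {s, t} := by
        rcases (by omega : A.card = 0 ∨ A.card = 1 ∨ A.card = 2) with h | h | h
        · rw [Finset.card_eq_zero] at h
          exact ⟨0, 0, by rw [h]; simp⟩
        · obtain ⟨s, rfl⟩ := Finset.card_eq_one.mp h
          exact ⟨s, s, by simp⟩
        · obtain ⟨s, t, _, rfl⟩ := Finset.card_eq_two.mp h
          exact ⟨s, t, subset_rfl⟩
      obtain ⟨s, t, hst⟩ := h2
      obtain ⟨u, hu1, hu2⟩ := low8 s t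
      have key : ∀ a ∈ A, cl 8 a u = false := by
        intro a ha
        have := hst ha
        rw [Finset.mem_insert, Finset.mem_singleton] at this
        rcases this with rfl | rfl
        · exact hu1
        · exact hu2
      rcases hA u (Set.mem_univ _) with h | ⟨a, ha, hau⟩
      · exact (cl_false (key u h)).1 rfl
      · exact (cl_false (key a ha)).2 hau
  · have main : ∀ x y : Fin 8, x < y → ¬ (capPath 8).Adj x y →
        ∃ S : Finset (Fin 8), S.card = 2 ∧
        (PreciselyDominates (capPath 8) (insert x (S : Set (Fin 8))) {y}ᶜ ∨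
         PreciselyDominates (capPath 8) (insert y (S : Set (Fin 8))) {x}ᶜ) := by
      intro x y hxy hadj
      have hcl : cl 8 x y = false := by
        by_contra h
        rw [Bool.not_eq_false, cl_iff] at h
        rcases h with h | h
        · exact absurd h (ne_of_lt hxy)
        · exact hadj h
      obtain ⟨s, t, hst, h | h⟩ := small8 x y hxy hcl
      · refine ⟨{s, t}, Finset.card_pair (ne_of_lt hst), Or.inl ?_⟩
        apply prec_of_bool _ hcl
        · intro u
          rcases h.1 u with h | h | h | h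
          · exact Or.inl h
          · exact Or.inr ⟨x, Or.inl rfl, h⟩
          · exact Or.inr ⟨s, Or.inr (by simp), h⟩
          · exact Or.inr ⟨t, Or.inr (by simp), h⟩
        · intro a ha
          rw [Finset.mem_insert, Finset.mem_singleton] at ha
          rcases ha with rfl | rfl
          · exact h.2.1
          · exact h.2.2
      · refine ⟨{s, t}, Finset.card_pair (ne_of_lt hst), Or.inr ?_⟩
        apply prec_of_bool _ (by rw [cl_symm]; exact hcl)
        · intro u
          rcases h.1 u with h | h | h | h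
          · exact Or.inl h
          · exact Or.inr ⟨y, Or.inl rfl, h⟩
          · exact Or.inr ⟨s, Or.inr (by simp), h⟩
          · exact Or.inr ⟨t, Or.inr (by simp), h⟩
        · intro a ha
          rw [Finset.mem_insert, Finset.mem_singleton] at ha
          rcases ha with rfl | rfl
          · exact h.2.1
          · exact h.2.2
    intro x y hne hadj
    rcases lt_or_gt_of_ne hne with h | h
    · exact main x y h hadj
    · obtain ⟨S, hS, h1 | h1⟩ := main y x h (fun h => hadj h.symm)
      · exact ⟨S, hS, Or.inr h1⟩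
      · exact ⟨S, hS, Or.inl h1⟩

theorem conservative6 : IsConservative 3 (capPath 6) := by
  classical
  refine ⟨by omega, ?_, ?_⟩
  · apply domNumber_eq
    · obtain ⟨s, t, hst, h⟩ := up6
      refine ⟨{s, t}, Finset.card_le_two, ?_⟩
      intro u _
      rcases h u with h | h
      · rcases (cl_iff _ _).mp h with rfl | h
        · left; simp
        · right; exact ⟨s, by simp, h⟩
      · rcases (cl_iff _ _).mp h with rfl | h
        · left; simp
        · right; exact ⟨t, by simp, h⟩
    · intro A hA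
      by_contra hcon
      push Not at hcon
      have h2 : ∃ s : Fin 6, A ⊆ {s} := by
        rcases (by omega : A.card = 0 ∨ A.card = 1) with h | h
        · rw [Finset.card_eq_zero] at h
          exact ⟨0, by rw [h]; simp⟩
        · obtain ⟨s, rfl⟩ := Finset.card_eq_one.mp h
          exact ⟨s, by simp⟩
      obtain ⟨s, hst⟩ := h2
      obtain ⟨u, hu1⟩ := low6 s
      have key : ∀ a ∈ A, cl 6 a u = false := by
        intro a ha
        have := hst ha
        rw [Finset.mem_singleton] at this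
        rw [this]; exact hu1
      rcases hA u (Set.mem_univ _) with h | ⟨a, ha, hau⟩
      · exact (cl_false (key u h)).1 rfl
      · exact (cl_false (key a ha)).2 hau
  · have main : ∀ x y : Fin 6, x < y → ¬ (capPath 6).Adj x y →
        ∃ S : Finset (Fin 6), S.card = 1 ∧
        (PreciselyDominates (capPath 6) (insert x (S : Set (Fin 6))) {y}ᶜ ∨
         PreciselyDominates (capPath 6) (insert y (S : Set (Fin 6))) {x}ᶜ) := by
      intro x y hxy hadj
      have hcl : cl 6 x y = false := by
        by_contra h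
        rw [Bool.not_eq_false, cl_iff] at h
        rcases h with h | h
        · exact absurd h (ne_of_lt hxy)
        · exact hadj h
      obtain ⟨s, h | h⟩ := small6 x y hxy hcl
      · refine ⟨{s}, Finset.card_singleton s, Or.inl ?_⟩
        apply prec_of_bool _ hcl
        · intro u
          rcases h.1 u with h | h | h
          · exact Or.inl h
          · exact Or.inr ⟨x, Or.inl rfl, h⟩
          · exact Or.inr ⟨s, Or.inr (by simp), h⟩
        · intro a ha
          rw [Finset.mem_singleton] at ha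
          rw [ha]; exact h.2
      · refine ⟨{s}, Finset.card_singleton s, Or.inr ?_⟩
        apply prec_of_bool _ (by rw [cl_symm]; exact hcl)
        · intro u
          rcases h.1 u with h | h | h
          · exact Or.inl h
          · exact Or.inr ⟨y, Or.inl rfl, h⟩
          · exact Or.inr ⟨s, Or.inr (by simp), h⟩
        · intro a ha
          rw [Finset.mem_singleton] at ha
          rw [ha]; exact h.2
    intro x y hne hadj
    rcases lt_or_gt_of_ne hne with h | h
    · exact main x y h hadj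
    · obtain ⟨S, hS, h1 | h1⟩ := main y x h (fun h => hadj h.symm)
      · exact ⟨S, hS, Or.inr h1⟩
      · exact ⟨S, hS, Or.inl h1⟩

/-- The path on three vertices `0 - 2 - 1` realised as `capPath`-independent graph: centre `1`. -/
def path3 : SimpleGraph (Fin 3) where
  Adj a b := (a = 1 ∧ b ≠ 1) ∨ (b = 1 ∧ a ≠ 1)
  symm := ⟨fun _ _ h => h.symm⟩
  loopless := ⟨fun a h => by rcases h with ⟨h1, h2⟩ | ⟨h1, h2⟩ <;> exact h2 h1⟩

theorem path3_conservative : IsConservative 2 path3 := by
  refine ⟨le_rfl, ?_, ?_⟩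
  · apply domNumber_eq
    · refine ⟨{1}, by simp, ?_⟩
      intro u _
      by_cases h : u = 1
      · left; simp [h]
      · right; exact ⟨1, by simp, Or.inl ⟨rfl, h⟩⟩
    · intro A hA
      by_contra hcon
      have h0 : A = ∅ := Finset.card_eq_zero.mp (by omega)
      rcases hA 0 (Set.mem_univ _) with h | ⟨a, ha, _⟩
      · rw [h0] at h; simp at h
      · rw [h0] at ha; simp at ha
  · intro x y hne hadj
    refine ⟨∅, by simp, Or.inl ⟨?_, ?_⟩⟩
    · intro u hu
      have huy : u ≠ y := by simpa using hu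
      by_cases hux : u = x
      · left; simp [hux]
      · right
        refine ⟨x, by simp, ?_⟩
        unfold path3 at hadj ⊢
        simp only at hadj ⊢
        revert hadj
        revert huy hux hne
        revert u x y
        decide
    · intro v hv hcon
      have hvy : v = y := by simpa using hv
      subst hvy
      rcases hcon v rfl with h | ⟨a, ha, hav⟩
      · have : v = x := by simpa using h
        exact hne this.symm
      · have : a = x := by simpa using ha
        subst this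
        exact hadj hav

theorem path3_connected : path3.Connected := by
  have h : ∀ a : Fin 3, path3.Reachable 1 a := by
    intro a
    by_cases h : a = 1
    · rw [h]
    · exact SimpleGraph.Adj.reachable (Or.inl ⟨rfl, h⟩)
  have : Nonempty (Fin 3) := ⟨0⟩
  exact SimpleGraph.Connected.mk (fun a b => (h a).symm.trans (h b))

theorem path3_diam : 2 ≤ path3.diam := by
  have hc := path3_connected
  have : Nonempty (Fin 3) := ⟨0⟩
  have h1 := hc.one_lt_dist_of_ne_of_not_adj (u := 0) (v := 2) (by decide)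
    (by unfold path3; simp)
  have h2 := SimpleGraph.dist_le_diam (G := path3)
    (SimpleGraph.connected_iff_ediam_ne_top.mp hc) (u := 0) (v := 2)
  omega

/-! ### The result -/

/-- **Main result.** For every `k ≥ 2` the largest diameter `D(k)` of a connected
`k`-conservative graph exists and equals `2, 4, 6` for `k = 2, 3, 4` and `3k - 7` for `k ≥ 5`. -/
theorem result (k : ℕ) (hk : 2 ≤ k) :
    IsGreatest (diameters k)
      (if k = 2 then 2 else if k = 3 then 4 else if k = 4 then 6 else 3 * k - 7) := by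
  have hub : (if k = 2 then 2 else if k = 3 then 4 else if k = 4 then 6 else 3 * k - 7) ∈
      upperBounds (diameters k) := by
    rintro d ⟨V, _, G, hG, hcons, rfl⟩
    exact upper_bound hG hcons
  refine ⟨?_, hub⟩
  have aux : ∀ (n : ℕ) (G : SimpleGraph (Fin n)), G.Connected → IsConservative k G →
      (if k = 2 then 2 else if k = 3 then 4 else if k = 4 then 6 else 3 * k - 7) ≤ G.diam →
      (if k = 2 then 2 else if k = 3 then 4 else if k = 4 then 6 else 3 * k - 7) ∈
        diameters k := by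
    intro n G hc hcons hle
    refine ⟨Fin n, inferInstance, G, hc, hcons, ?_⟩
    exact le_antisymm (upper_bound hc hcons) hle
  rcases (by omega : k = 2 ∨ k = 3 ∨ k = 4 ∨ 5 ≤ k) with rfl | rfl | rfl | h5
  · exact aux 3 path3 path3_connected path3_conservative path3_diam
  · exact aux 6 (capPath 6) (capPath_connected (n := 6) (by omega)) conservative6
      (capPath_diam (n := 6) (by omega))
  · exact aux 8 (capPath 8) (capPath_connected (n := 8) (by omega)) conservative8
      (capPath_diam (n := 8) (by omega))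
  · obtain ⟨g, rfl⟩ : ∃ g, k = g + 1 := ⟨k - 1, by omega⟩
    have hd := capPath_diam (n := 3 * g - 2) (by omega)
    refine aux (3 * g - 2) (capPath (3 * g - 2)) (capPath_connected (by omega))
      (capPath_conservative (by omega)) ?_
    rw [if_neg (by omega), if_neg (by omega), if_neg (by omega)]
    omega

end Pool.Agent.Results.MP_2cf482_co.DiameterFormula
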